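import Pool.Agent.H670R5.MainI

/-!
# Recognizing graphs with an inside-obstacle representation is NP-hard

The definitions are in `Pool.Agent.H670R5.Defs` (polygons, sides of a polygon, representations),
`Pool.Agent.H670R5.Fin` (the drawing), `Pool.Agent.H670R5.St3` (the decision problem `InsideObs`),
`Pool.Agent.H679R2.Oct.Defs` (graphs given by a list of vertices and a list of edges) and
`Pool.Agent.NPC.Defs` (NP-hardness).

The reduction is that of `Pool.Agent.Results.MP_3b0ea9_lc.SingleObstacleNPHard` with four further
vertices, which are placed at the corners of a large rectangle around the obstacle; its sides are
edges of the graph.  Soundness holds since already the subgraph without these vertices has a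
single-obstacle representation only if the formula is satisfiable.
-/

namespace Pool.Agent.Results.MP_32fe36_lc.InsideObstacleNPHard

open Pool.Agent.NPC Pool.Agent.H679R2 Pool.Agent.H670R5

/-- Deciding whether a graph has an inside-obstacle representation is NP-hard. -/
theorem result : NPHardP InsideObs := (hard_inside allStI).toNPHardP

end Pool.Agent.Results.MP_32fe36_lc.InsideObstacleNPHard
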