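import Pool.Agent.H670R5.Main

/-!
# Recognizing graphs with an outside-obstacle representation is NP-hard

The definitions are in `Pool.Agent.H670R5.Defs` (polygons, sides of a polygon, representations),
`Pool.Agent.H670R5.Fin` (the decision problem `OutsideObs`), `Pool.Agent.H679R2.Oct.Defs` (graphs
given by a list of vertices and a list of edges) and `Pool.Agent.NPC.Defs` (NP-hardness).  For a
sketch of the proof see `Pool.Agent.Results.MP_3b0ea9_lc.SingleObstacleNPHard`.
-/

namespace Pool.Agent.Results.MP_32fe36_lc.OutsideObstacleNPHard

open Pool.Agent.NPC Pool.Agent.H679R2 Pool.Agent.H670R5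

/-- Deciding whether a graph has an outside-obstacle representation is NP-hard. -/
theorem result : NPHardP OutsideObs := (hard_outside allSt).toNPHardP

end Pool.Agent.Results.MP_32fe36_lc.OutsideObstacleNPHard
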